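import Mathlib

set_option autoImplicit false

namespace Pool.Agent.Results.MP_4befb3_co.Counter

open Set

/-- The point of the edge `uv` at distance `s` from `u`. -/
structure Pt (n : ℕ) where
  u : Fin n
  v : Fin n
  s : ℝ
  ne : u ≠ v
  s0 : 0 ≤ s
  s1 : s ≤ 1

variable {n : ℕ}

/-- Graph distance of vertices in the complete graph. -/
def vd (x y : Fin n) : ℝ := if x = y then 0 else 1

/-- Distance from a point to a vertex. -/
noncomputable def toV (p : Pt n) (x : Fin n) : ℝ := min (p.s + vd p.u x) (1 - p.s + vd p.v x)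

/-- Shortest path through an endpoint of the edge of `q`. -/
noncomputable def via (p q : Pt n) : ℝ := min (toV p q.u + q.s) (toV p q.v + (1 - q.s))

/-- Shortest path distance in the continuous complete graph. -/
noncomputable def D (p q : Pt n) : ℝ :=
  if p.u = q.u ∧ p.v = q.v then min |p.s - q.s| (via p q)
  else if p.u = q.v ∧ p.v = q.u then min |p.s - (1 - q.s)| (via p q) else via p q

/-- Closed ball of radius one half. -/
def ball (p : Pt n) : Set (Pt n) := {q | D p q ≤ 1 / 2}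

/-- The continuous complete graph on `n` vertices is `(1/2, c)`-colourable. -/
def Colourable (n c : ℕ) : Prop :=
  ∃ F : Set (Set (Pt n)), (∀ B ∈ F, ∃ p, B = ball p) ∧ ⋃₀ F = univ ∧
    ∃ f : F → Fin c, ∀ B B' : F, B ≠ B' → (B.1 ∩ B'.1).Nonempty → f B ≠ f B'

lemma tv {p : Pt n} (h : p.s < 1 / 2) (x : Fin n) {r : ℝ} (r0 : 0 ≤ r) :
    toV p x + r ≤ 1 / 2 ↔ p.u = x ∧ r ≤ 1 / 2 - p.s := by
  have := p.s0
  unfold toV vd
  rw [← min_add_add_right, min_le_iff]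
  split_ifs with a b b <;> simp only [a, true_and, false_and, iff_false, not_or, not_le]
  · exact ⟨fun k => k.elim (by intro; linarith) (by intro; linarith), fun k => .inl (by linarith)⟩
  · exact ⟨fun k => k.elim (by intro; linarith) (by intro; linarith), fun k => .inl (by linarith)⟩
  all_goals constructor <;> linarith

lemma mem {p q : Pt n} (h : p.s < 1 / 2) : q ∈ ball p ↔
    (p.u = q.u ∧ q.s ≤ 1 / 2 + if p.v = q.v then p.s else -p.s) ∨
    (p.u = q.v ∧ 1 - q.s ≤ 1 / 2 + if p.v = q.u then p.s else -p.s) := by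
  have := p.s0
  have := q.s0
  have := q.s1
  have n1 := p.ne
  have n2 := q.ne
  have v : via p q ≤ 1 / 2 ↔ _ := min_le_iff.trans (or_congr (tv h _ q.s0) (tv h _ (by linarith)))
  simp only [ball, D, mem_setOf]
  split_ifs <;> simp only [min_le_iff, v, abs_le] <;> grind

/-- The arcs: tail, head, level, colour. -/
def arc : Fin 50 → Fin 11 × Fin 11 × Fin 5 × Fin 5 := ![
  (1, 6, 4, 0), (7, 6, 4, 0), (10, 1, 3, 0), (4, 7, 1, 0), (5, 7, 3, 0), (8, 10, 2, 0),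
  (2, 5, 2, 0), (3, 8, 1, 0), (9, 2, 1, 0), (8, 6, 3, 1), (2, 6, 1, 1), (3, 6, 1, 1),
  (4, 6, 2, 1), (9, 8, 2, 1), (5, 8, 1, 1), (10, 4, 1, 1), (0, 9, 1, 1), (7, 9, 1, 1),
  (3, 9, 3, 2), (4, 9, 3, 2), (5, 3, 2, 2), (7, 3, 2, 2), (8, 4, 2, 2), (0, 5, 1, 2),
  (6, 5, 1, 2), (10, 7, 1, 2), (1, 8, 1, 2), (8, 2, 4, 3), (10, 2, 4, 3), (7, 8, 3, 3),
  (9, 10, 3, 3), (0, 7, 2, 3), (1, 9, 1, 3), (5, 9, 2, 3), (6, 0, 1, 3), (4, 5, 1, 3),
  (1, 5, 3, 4), (10, 5, 3, 4), (7, 1, 2, 4), (0, 10, 2, 4), (3, 10, 1, 4), (6, 10, 2, 4),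
  (2, 7, 1, 4), (8, 0, 1, 4), (9, 6, 1, 4), (0, 10, 0, 0), (1, 10, 0, 1), (2, 10, 0, 2),
  (3, 10, 0, 3), (4, 10, 0, 4)]

/-- Reach from the tail along the edge towards `y`, in units of one twentieth. -/
def R (i : Fin 50) (y : Fin 11) : ℕ :=
  if (arc i).2.1 = y then 10 + (arc i).2.2.1 else 10 - (arc i).2.2.1

lemma a1 : ∀ i, (arc i).1 ≠ (arc i).2.1 := by decide +kernel

lemma a2 : ∀ x y, x ≠ y → ∃ i, (arc i).1 = x ∧ ∃ j, (arc j).1 = y ∧ 20 ≤ R i y + R j x := by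
  decide +kernel

lemma a3 : ∀ i j, i ≠ j → (arc i).2.2.2 = (arc j).2.2.2 →
    (arc i).1 ≠ (arc j).1 ∧ R i (arc j).1 + R j (arc i).1 < 20 := by decide +kernel

/-- The centres. -/
noncomputable def ctr (i : Fin 50) : Pt 11 :=
  ⟨(arc i).1, (arc i).2.1, ((arc i).2.2.1 : ℕ) / 20, a1 i, by positivity, by
    have : (((arc i).2.2.1 : ℕ) : ℝ) < 5 := by exact_mod_cast (arc i).2.2.1.2
    linarith⟩

lemma cm (i : Fin 50) (q : Pt 11) : q ∈ ball (ctr i) ↔
    ((arc i).1 = q.u ∧ q.s ≤ R i q.v / 20) ∨ ((arc i).1 = q.v ∧ 1 - q.s ≤ R i q.u / 20) := by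
  have h := (arc i).2.2.1.2
  have : (((arc i).2.2.1 : ℕ) : ℝ) < 5 := by exact_mod_cast h
  have k : ∀ y, (R i y : ℝ) / 20 = 1 / 2 + if (ctr i).v = y then (ctr i).s else -(ctr i).s :=
    fun y => by
      simp only [R, ctr]
      split_ifs
      · push_cast; ring
      · rw [Nat.cast_sub (by omega)]; push_cast; ring
  rw [mem (by simp only [ctr]; linarith), k, k]
  rfl

/-- The continuous complete graph on eleven vertices has a half-cover with five colours. -/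
theorem result : Colourable 11 5 := by
  refine ⟨range fun i => ball (ctr i), by rintro _ ⟨i, rfl⟩; exact ⟨_, rfl⟩,
    eq_univ_of_forall fun q => ?_, fun B => (arc B.2.choose).2.2.2, fun B B' n ⟨q, a, b⟩ e => ?_⟩
  · obtain ⟨i, hi, j, hj, h⟩ := a2 _ _ q.ne
    have h : (20 : ℝ) ≤ R i q.v + R j q.u := by exact_mod_cast h
    rcases le_total q.s (R i q.v / 20) with k | k
    · exact ⟨_, ⟨i, rfl⟩, (cm i q).2 (.inl ⟨hi, k⟩)⟩
    · exact ⟨_, ⟨j, rfl⟩, (cm j q).2 (.inr ⟨hj, by linarith⟩)⟩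
  · rw [← B.2.choose_spec, cm] at a
    rw [← B'.2.choose_spec, cm] at b
    obtain ⟨c, d⟩ := a3 _ _ (fun k => n (Subtype.ext
      (by rw [← B.2.choose_spec, ← B'.2.choose_spec, k]))) e
    have d : (R B.2.choose (arc B'.2.choose).1 : ℝ) + R B'.2.choose (arc B.2.choose).1 < 20 := by
      exact_mod_cast d
    rcases a with ⟨a, a'⟩ | ⟨a, a'⟩ <;> rcases b with ⟨b, b'⟩ | ⟨b, b'⟩
    · exact c (a.trans b.symm)
    · rw [a, b] at d; linarith
    · rw [a, b] at d; linarith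
    · exact c (a.trans b.symm)

end Pool.Agent.Results.MP_4befb3_co.Counter
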